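import Mathlib
import Pool.Agent.Helper70.JonesAbstract

open Set Topology TopologicalSpace

namespace Helper92.Jones

variable {S : Type*} [TopologicalSpace S]

/-- A subcontinuum: a (nonempty) closed connected subset. -/
def IsSubcontinuum (W : Set S) : Prop := IsClosed W ∧ IsConnected W

/-- Jones's set function `T`. -/
def T (A : Set S) : Set S :=
  {p | ¬ ∃ W : Set S, IsSubcontinuum W ∧ p ∈ interior W ∧ W ∩ A = ∅}

theorem subset_T (A : Set S) : A ⊆ T A := by
  rintro p hp ⟨W, -, hpW, hWA⟩
  have : p ∈ W ∩ A := ⟨interior_subset hpW, hp⟩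
  rw [hWA] at this
  exact this

theorem T_mono {A B : Set S} (h : A ⊆ B) : T A ⊆ T B := by
  rintro p hp ⟨W, hW, hpW, hWB⟩
  exact hp ⟨W, hW, hpW, by
    apply Set.eq_empty_of_subset_empty
    rintro q ⟨hq, hqA⟩
    have : q ∈ W ∩ B := ⟨hq, h hqA⟩
    rw [hWB] at this
    exact this⟩

theorem exists_of_notMem_T {A : Set S} {p : S} (hp : p ∉ T A) :
    ∃ W : Set S, IsSubcontinuum W ∧ p ∈ interior W ∧ W ∩ A = ∅ := by
  by_contra h
  exact hp h

theorem notMem_T {A : Set S} {p : S} (W : Set S) (hW : IsSubcontinuum W) (hp : p ∈ interior W)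
    (hA : W ∩ A = ∅) : p ∉ T A := fun h => h ⟨W, hW, hp, hA⟩

theorem isClosed_T (A : Set S) : IsClosed (T A) := by
  rw [← isOpen_compl_iff, isOpen_iff_forall_mem_open]
  intro p hp
  obtain ⟨W, hW, hpW, hWA⟩ := exists_of_notMem_T hp
  refine ⟨interior W, ?_, isOpen_interior, hpW⟩
  intro q hq hqT
  exact hqT ⟨W, hW, hq, hWA⟩

theorem mem_T_self (x : S) : x ∈ T ({x} : Set S) := subset_T _ rfl

section bump

variable [CompactSpace S] [T2Space S] [PreconnectedSpace S]

/-- Boundary bumping. -/
theorem bump {O : Set S} (hO : IsOpen O) {p : S} (hp : p ∉ closure O) {y : S}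
    (hy : y ∈ closure O) : (connectedComponentIn (closure O) y ∩ frontier O).Nonempty := by
  classical
  by_contra hcon
  rw [Set.not_nonempty_iff_eq_empty] at hcon
  have : CompactSpace (closure O) := isCompact_iff_compactSpace.mp isClosed_closure.isCompact
  -- clopen sets of the subspace
  let y' : closure O := ⟨y, hy⟩
  have h1 : connectedComponent y' = ⋂ s : { s : Set (closure O) // IsClopen s ∧ y' ∈ s }, s.1 :=
    connectedComponent_eq_iInter_isClopen y'
  have h2 : connectedComponentIn (closure O) y = (↑) '' connectedComponent y' := by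
    rw [connectedComponentIn_eq_image hy]
  let Fr : Set (closure O) := {z | (z : S) ∈ frontier O}
  have hFr : IsClosed Fr := isClosed_frontier.preimage continuous_subtype_val
  have h3 : Fr ∩ ⋂ s : { s : Set (closure O) // IsClopen s ∧ y' ∈ s }, s.1 = ∅ := by
    rw [← h1]
    apply Set.eq_empty_of_subset_empty
    rintro z ⟨hz1, hz2⟩
    have : (z : S) ∈ connectedComponentIn (closure O) y ∩ frontier O := by
      rw [h2]; exact ⟨⟨z, hz2, rfl⟩, hz1⟩
    rw [hcon] at this
    exact this
  have hne : Nonempty { s : Set (closure O) // IsClopen s ∧ y' ∈ s } :=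
    ⟨⟨univ, isClopen_univ, mem_univ _⟩⟩
  obtain ⟨⟨D, hD, hyD⟩, hDF⟩ := (hFr.isCompact).elim_directed_family_closed
    (fun s : { s : Set (closure O) // IsClopen s ∧ y' ∈ s } => s.1)
    (fun s => s.2.1.isClosed) h3 (by
      intro a b
      refine ⟨⟨a.1 ∩ b.1, a.2.1.inter b.2.1, a.2.2, b.2.2⟩, ?_, ?_⟩
      · exact inter_subset_left
      · exact inter_subset_right)
  have hDO : ((↑) '' D : Set S) ⊆ O := by
    rintro _ ⟨z, hz, rfl⟩
    by_contra hzO
    have : z ∈ Fr ∩ D := ⟨by
      show (z : S) ∈ frontier O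
      rw [hO.frontier_eq]
      exact ⟨z.2, hzO⟩, hz⟩
    rw [hDF] at this
    exact this
  have hclosed : IsClosed ((↑) '' D : Set S) :=
    (isClosed_closure.isClosedEmbedding_subtypeVal).isClosedMap _ hD.isClosed
  have hopen : IsOpen ((↑) '' D : Set S) := by
    obtain ⟨U, hU, hUD⟩ := isOpen_induced_iff.mp hD.isOpen
    have : ((↑) '' D : Set S) = U ∩ O := by
      ext z
      constructor
      · intro hz
        refine ⟨?_, hDO hz⟩
        obtain ⟨w, hw, rfl⟩ := hz
        rw [← hUD] at hw
        exact hw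
      · rintro ⟨hzU, hzO⟩
        refine ⟨⟨z, subset_closure hzO⟩, ?_, rfl⟩
        rw [← hUD]
        exact hzU
    rw [this]
    exact hU.inter hO
  have huniv : ((↑) '' D : Set S) = univ :=
    IsClopen.eq_univ ⟨hclosed, hopen⟩ ⟨y, y', hyD, rfl⟩
  have : p ∈ ((↑) '' D : Set S) := by rw [huniv]; trivial
  exact hp (subset_closure (hDO this))

/-- `T p` is connected. -/
theorem isPreconnected_T_singleton (p : S) : IsPreconnected (T ({p} : Set S)) := by
  classical
  by_contra hcon
  rw [isPreconnected_iff_subset_of_fully_disjoint_closed (isClosed_T _)] at hcon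
  push Not at hcon
  obtain ⟨P, Q, hP, hQ, hPQ, hdisj, hnP, hnQ⟩ := hcon
  -- wlog `p ∈ Q`
  wlog hpQ : p ∈ Q generalizing P Q with H
  · refine H Q P hQ hP (by rw [union_comm]; exact hPQ) hdisj.symm hnQ hnP ?_
    rcases hPQ (mem_T_self p) with h | h
    · exact h
    · exact absurd h hpQ
  -- a point of `P`
  obtain ⟨x, hxT, hxQ⟩ := Set.not_subset.mp hnQ
  have hxP : x ∈ P := by
    rcases hPQ hxT with h | h
    · exact h
    · exact absurd h hxQ
  obtain ⟨O, O', hO, hO', hPO, hQO', hOO'⟩ := normal_separation hP hQ hdisj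
  have hclO : Disjoint (closure O) O' := hOO'.closure_left hO'
  have hpO : p ∉ closure O := fun h => (Set.disjoint_left.mp hclO) h (hQO' hpQ)
  -- the frontier of `O` misses `T p`
  have hfr : ∀ b ∈ frontier O, ∃ W : Set S, IsSubcontinuum W ∧ b ∈ interior W ∧ p ∉ W := by
    intro b hb
    have hbT : b ∉ T ({p} : Set S) := by
      intro hbT
      rcases hPQ hbT with h | h
      · rw [hO.frontier_eq] at hb
        exact hb.2 (hPO h)
      · exact (Set.disjoint_left.mp hclO) (frontier_subset_closure hb) (hQO' h)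
    obtain ⟨W, hW, hbW, hWp⟩ := exists_of_notMem_T hbT
    refine ⟨W, hW, hbW, fun hp => ?_⟩
    have : p ∈ W ∩ {p} := ⟨hp, rfl⟩
    rw [hWp] at this
    exact this
  choose! W hWc hWi hWp using hfr
  obtain ⟨t, htF, htcov⟩ := (isClosed_frontier (s := O)).isCompact.elim_nhds_subcover
    (fun b => interior (W b)) (fun b hb => isOpen_interior.mem_nhds (hWi b hb))
  -- the set `Y`
  set Y : Set S := closure O ∪ ⋃ b ∈ t, W b with hYdef
  have hYcl : IsClosed Y := isClosed_closure.union
    (isClosed_biUnion_finset (fun b hb => (hWc b (htF b hb)).1))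
  have hpY : p ∉ Y := by
    rintro (h | h)
    · exact hpO h
    · simp only [mem_iUnion, exists_prop] at h
      obtain ⟨b, hb, hpb⟩ := h
      exact hWp b (htF b hb) hpb
  let A : S → Set S := fun b =>
    {y | y ∈ closure O ∧ (connectedComponentIn (closure O) y ∩ W b).Nonempty}
  let H : S → Set S := fun b => W b ∪ ⋃ y ∈ A b, connectedComponentIn (closure O) y
  have hHY : ∀ b ∈ t, H b ⊆ Y := by
    intro b hb
    apply union_subset
    · exact (subset_biUnion_of_mem (u := fun b => W b) hb).trans subset_union_right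
    · refine iUnion₂_subset fun y hy => ?_
      exact (connectedComponentIn_subset _ _).trans subset_union_left
  have hHconn : ∀ b ∈ t, IsPreconnected (H b) := by
    intro b hb
    have hWb := hWc b (htF b hb)
    have : H b = ⋃ y : Option (A b), (match y with
        | none => W b
        | some y => W b ∪ connectedComponentIn (closure O) y) := by
      ext z
      simp only [H, mem_union, mem_iUnion, exists_prop]
      constructor
      · rintro (h | ⟨y, hy, hz⟩)
        · exact ⟨none, h⟩
        · exact ⟨some ⟨y, hy⟩, Or.inr hz⟩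
      · rintro ⟨(_ | y), h⟩
        · exact Or.inl h
        · rcases h with h | h
          · exact Or.inl h
          · exact Or.inr ⟨y, y.2, h⟩
    rw [this]
    obtain ⟨w, hw⟩ := hWb.2.nonempty
    refine isPreconnected_iUnion ⟨w, ?_⟩ ?_
    · rw [mem_iInter]
      rintro (_ | y)
      · exact hw
      · exact Or.inl hw
    · rintro (_ | y)
      · exact hWb.2.isPreconnected
      · obtain ⟨v, hv1, hv2⟩ := y.2.2
        exact IsPreconnected.union v hv2 hv1 hWb.2.isPreconnected isPreconnected_connectedComponentIn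
  have hcov : ∀ y ∈ O, ∃ b ∈ t, y ∈ H b := by
    intro y hy
    obtain ⟨c, hc1, hc2⟩ := bump hO hpO (subset_closure hy)
    have := htcov hc2
    simp only [mem_iUnion, exists_prop] at this
    obtain ⟨b, hb, hcb⟩ := this
    refine ⟨b, hb, Or.inr ?_⟩
    simp only [mem_iUnion, exists_prop]
    exact ⟨y, ⟨subset_closure hy, c, hc1, interior_subset hcb⟩,
      mem_connectedComponentIn (subset_closure hy)⟩
  set C : Set S := connectedComponentIn Y x with hC
  have hxY : x ∈ Y := Or.inl (subset_closure (hPO hxP))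
  have hxint : x ∈ interior (closure C) := by
    rw [mem_interior]
    refine ⟨O ∩ (⋃ b ∈ t.filter (fun b => ¬ (H b ⊆ C)), closure (H b))ᶜ, ?_, ?_, ?_⟩
    · rintro y ⟨hyO, hy⟩
      obtain ⟨b, hb, hyb⟩ := hcov y hyO
      apply subset_closure
      by_cases hbC : H b ⊆ C
      · exact hbC hyb
      · exfalso
        apply hy
        simp only [mem_iUnion, exists_prop, Finset.mem_filter]
        exact ⟨b, ⟨hb, hbC⟩, subset_closure hyb⟩
    · exact hO.inter (isClosed_biUnion_finset (fun b _ => isClosed_closure)).isOpen_compl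
    · refine ⟨hPO hxP, ?_⟩
      intro hx
      simp only [mem_iUnion, exists_prop, Finset.mem_filter] at hx
      obtain ⟨b, ⟨hb, hbC⟩, hxb⟩ := hx
      apply hbC
      have hsub : closure (H b) ⊆ Y := closure_minimal (hHY b hb) hYcl
      exact subset_closure.trans ((hHconn b hb).closure.subset_connectedComponentIn hxb hsub)
  refine notMem_T (closure C) ⟨isClosed_closure, ?_⟩ hxint ?_ hxT
  · exact ⟨⟨x, interior_subset hxint⟩, isPreconnected_connectedComponentIn.closure⟩
  · apply Set.eq_empty_of_subset_empty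
    rintro q ⟨hq, rfl⟩
    exact hpY (closure_minimal (connectedComponentIn_subset _ _) hYcl hq)

end bump

/-- The set function `T` as a self-map of the hyperspace of nonempty closed subsets of `S`
(in a compact Hausdorff space these are the nonempty compact subsets), which Mathlib equips with
the Vietoris topology. -/
def TMap [CompactSpace S] (A : NonemptyCompacts S) : NonemptyCompacts S :=
  ⟨⟨T (A : Set S), (isClosed_T _).isCompact⟩, A.nonempty.mono (subset_T _)⟩

/-- `T` is continuous for `S`. -/
def TContinuous (S : Type*) [TopologicalSpace S] [CompactSpace S] : Prop :=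
  Continuous (TMap (S := S))

section cont

variable [CompactSpace S] [T2Space S] [PreconnectedSpace S]

/-- The singleton as a point of the hyperspace. -/
def sing (x : S) : NonemptyCompacts S := ⟨⟨{x}, isCompact_singleton⟩, ⟨x, rfl⟩⟩

theorem continuous_sing : Continuous (sing : S → NonemptyCompacts S) := by
  have h : (sing : S → NonemptyCompacts S) = ({·} : S → NonemptyCompacts S) := by
    funext x
    apply SetLike.coe_injective
    rfl
  rw [h]
  exact NonemptyCompacts.continuous_singleton

theorem coe_TMap_sing (x : S) : (TMap (sing x) : Set S) = T {x} := rfl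

/-- If `W` is a subcontinuum then `T (closure (S \ W))` misses the interior of `W`. -/
theorem disjoint_T_closure_compl (hT : TContinuous S) {W : Set S} (hW : IsSubcontinuum W) :
    T (closure Wᶜ) ∩ interior W = ∅ := by
  by_cases hWu : (Wᶜ).Nonempty
  swap
  · rw [Set.not_nonempty_iff_eq_empty] at hWu
    rw [hWu, closure_empty]
    apply Set.eq_empty_of_subset_empty
    rintro q ⟨hq, hqW⟩
    exact hq ⟨W, hW, hqW, by simp⟩
  by_contra hne
  rw [← ne_eq, ← Set.nonempty_iff_ne_empty] at hne
  let A : NonemptyCompacts S := ⟨⟨closure Wᶜ, isClosed_closure.isCompact⟩, hWu.closure⟩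
  have hopen : IsOpen {B : NonemptyCompacts S | ((TMap B : Set S) ∩ interior W).Nonempty} :=
    (NonemptyCompacts.isOpen_inter_nonempty_of_isOpen isOpen_interior).preimage hT
  have hA : A ∈ {B : NonemptyCompacts S | ((TMap B : Set S) ∩ interior W).Nonempty} := hne
  have hcl : A ∈ closure {K : NonemptyCompacts S | (K : Set S).Finite ∧ (K : Set S) ⊆ Wᶜ} := by
    rw [NonemptyCompacts.closure_finite_subsets]
    show (A : Set S) ⊆ closure Wᶜ
    exact fun z hz => hz
  obtain ⟨B, hB1, hBfin, hB2⟩ := mem_closure_iff.mp hcl _ hopen hA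
  obtain ⟨q, hq, hqW⟩ := hB1
  exact hq ⟨W, hW, hqW, by
    apply Set.eq_empty_of_subset_empty
    rintro z ⟨hz, hzB⟩
    exact hB2 hzB hz⟩

theorem T_trans (hT : TContinuous S) (x y : S) (hy : y ∈ T ({x} : Set S)) :
    T ({y} : Set S) ⊆ T {x} := by
  intro z hz
  by_contra hzx
  obtain ⟨W, hW, hzW, hWx⟩ := exists_of_notMem_T hzx
  have hxW : x ∉ W := fun h => by
    have : x ∈ W ∩ {x} := ⟨h, rfl⟩
    rw [hWx] at this
    exact this
  have hdis := disjoint_T_closure_compl hT hW
  have hxA : ({x} : Set S) ⊆ closure Wᶜ := by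
    rintro _ rfl
    exact subset_closure hxW
  have hyW : y ∉ interior W := by
    intro h
    have : y ∈ T (closure Wᶜ) ∩ interior W := ⟨T_mono hxA hy, h⟩
    rw [hdis] at this
    exact this
  have hyA : ({y} : Set S) ⊆ closure Wᶜ := by
    rintro _ rfl
    rw [closure_compl]
    exact hyW
  have : z ∈ T (closure Wᶜ) ∩ interior W := ⟨T_mono hyA hz, hzW⟩
  rw [hdis] at this
  exact this

theorem pointData (hT : TContinuous S) :
    Helper70.JonesAbstract.PointData (fun x : S => T ({x} : Set S)) where
  isClosed x := isClosed_T _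
  self_mem x := mem_T_self x
  conn x := isPreconnected_T_singleton x
  trans x y h := T_trans hT x y h
  usc x U hU hx := by
    refine ⟨{y | T ({y} : Set S) ⊆ U}, ?_, hx, fun y hy => hy⟩
    exact ((NonemptyCompacts.isOpen_subsets_of_isOpen hU).preimage hT).preimage continuous_sing
  lsc x U hU hx := by
    refine ⟨{y | (T ({y} : Set S) ∩ U).Nonempty}, ?_, hx, fun y hy => hy⟩
    exact ((NonemptyCompacts.isOpen_inter_nonempty_of_isOpen hU).preimage hT).preimage
      continuous_sing
  sub x z H hH hHc hz hx := notMem_T H ⟨hH, hHc⟩ hz (by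
    apply Set.eq_empty_of_subset_empty
    rintro q ⟨hq, rfl⟩
    exact hx hq)

/-- If `T` is continuous for `S`, the sets `T p` form a partition. -/
theorem T_eq_of_mem (hT : TContinuous S) {p q : S} (h : q ∈ T ({p} : Set S)) :
    T ({q} : Set S) = T {p} :=
  Helper70.JonesAbstract.eq_of_mem (pointData hT) h

/-- Main theorem. -/
theorem main (hT : TContinuous S) (hp : ∃ p : S, (interior (T ({p} : Set S))).Nonempty) :
    ¬ ∃ A B : Set S, IsSubcontinuum A ∧ IsSubcontinuum B ∧ A ≠ univ ∧ B ≠ univ ∧ A ∪ B = univ := by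
  rintro ⟨A, B, hA, hB, hA', hB', hAB⟩
  obtain ⟨p, hp⟩ := hp
  rcases Helper70.JonesAbstract.indecomposable_of_interior (pointData hT) (p := p) hp hA.1 hA.2
    hB.1 hAB with h | h
  · exact hA' h
  · exact hB' h

end cont

end Helper92.Jones
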